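import Mathlib

namespace Pool.Agent.Results.MP_870dc7_co.Disproof

open Filter

/-- The counting function `B(N) = |B ∩ {1, …, N}|`. -/
noncomputable def cnt (B : Set ℕ) (N : ℕ) : ℕ := (B ∩ Set.Icc 1 N).ncard

def Growth (H : ℕ → ℕ) : Prop := Monotone H ∧ Tendsto H atTop atTop ∧ ∀ N, 1 ≤ N → 1 ≤ H N

def Small (S : Set ℕ) : Prop := ∃ k, ∀ N, cnt S N ≤ k * (N.sqrt + 1)

lemma cnt_mono {S T : Set ℕ} (h : S ⊆ T) (N : ℕ) : cnt S N ≤ cnt T N :=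
  Set.ncard_le_ncard (Set.inter_subset_inter_left _ h) ((Set.finite_Icc 1 N).inter_of_right _)

lemma cnt_univ (N : ℕ) : cnt Set.univ N = N := by simp [cnt]

lemma cnt_le (S : Set ℕ) (N : ℕ) : cnt S N ≤ N :=
  (cnt_mono (Set.subset_univ S) N).trans (cnt_univ N).le

def F : Filter ℕ where
  sets := {S | Small Sᶜ}
  univ_sets := ⟨0, by simp [cnt]⟩
  sets_of_superset := fun ⟨k, hk⟩ h =>
    ⟨k, fun N => (cnt_mono (Set.compl_subset_compl.2 h) N).trans (hk N)⟩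
  inter_sets := fun {S T} ⟨k, hk⟩ ⟨l, hl⟩ => ⟨k + l, fun N => by
    have : cnt (S ∩ T)ᶜ N ≤ cnt Sᶜ N + cnt Tᶜ N := by
      unfold cnt
      rw [Set.compl_inter, Set.union_inter_distrib_right]
      exact Set.ncard_union_le _ _
    have a := hk N
    have b := hl N
    nlinarith⟩

instance : F.NeBot := by
  refine ⟨fun h => ?_⟩
  have : (∅ : Set ℕ) ∈ F := h ▸ mem_bot
  obtain ⟨k, hk⟩ := this
  have := hk ((k + 1) * (k + 1))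
  rw [Set.compl_empty, cnt_univ, Nat.sqrt_eq] at this
  nlinarith

noncomputable def q : Ultrafilter ℕ := Ultrafilter.of F

lemma big {S : Set ℕ} (h : S ∈ q) (k : ℕ) : ∃ N, k ≤ N ∧ N.sqrt ≤ cnt S N ∧ k ≤ cnt S N := by
  have : ¬ Small S := by
    intro hs
    have : Sᶜ ∈ q := Ultrafilter.of_le F (show Small Sᶜᶜ by rwa [compl_compl])
    exact Ultrafilter.compl_mem_iff_notMem.1 this h
  unfold Small at this
  push Not at this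
  obtain ⟨N, hN⟩ := this (k + 1)
  have := cnt_le S N
  exact ⟨N, by nlinarith, by nlinarith, by nlinarith⟩

lemma far {S : Set ℕ} (h : S ∈ q) (k : ℕ) : ∃ c ∈ S, k < c := by
  by_contra hc
  push Not at hc
  obtain ⟨N, _, _, h3⟩ := big h (k + 1)
  have : cnt S N ≤ (Set.Icc 1 k).ncard :=
    Set.ncard_le_ncard (fun x hx => ⟨hx.2.1, hc x hx.1⟩) (Set.finite_Icc 1 k)
  simp at this
  omega

/-- A finite stage of the construction. -/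
def Good (A : Set ℕ) (p : Set ℕ × Set ℕ) : Prop :=
  p.1.Finite ∧ p.2.Finite ∧ (∀ b ∈ p.1, 1 ≤ b ∧ {x | b + x ∈ A} ∈ q) ∧
    (∀ c ∈ p.2, 1 ≤ c ∧ {x | c + x ∈ A} ∈ q) ∧ ∀ b ∈ p.1, ∀ c ∈ p.2, b + c ∈ A

lemma step (A : Set ℕ) (hA : {b | {x | b + x ∈ A} ∈ q} ∈ q) (k : ℕ) (p : {p // Good A p}) :
    ∃ p' : {p // Good A p}, p.1.1 ⊆ p'.1.1 ∧ p.1.2 ⊆ p'.1.2 ∧
      (∃ N, k ≤ N ∧ N.sqrt ≤ cnt p'.1.1 N) ∧ ∃ c ∈ p'.1.2, k < c := by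
  obtain ⟨⟨B, C⟩, hB, hC, h1, h2, h3⟩ := p
  have hS : {b | {x | b + x ∈ A} ∈ q} ∩ ⋂ c ∈ C, {x | c + x ∈ A} ∈ q :=
    inter_mem hA ((biInter_mem hC).2 fun c hc => (h2 c hc).2)
  obtain ⟨N, hN1, hN2, _⟩ := big hS k
  set S := {b | {x | b + x ∈ A} ∈ q} ∩ ⋂ c ∈ C, {x | c + x ∈ A} with hSdef
  have hB' : (B ∪ S ∩ Set.Icc 1 N).Finite := hB.union ((Set.finite_Icc 1 N).inter_of_right _)
  have h1' : ∀ b ∈ B ∪ S ∩ Set.Icc 1 N, 1 ≤ b ∧ {x | b + x ∈ A} ∈ q := by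
    rintro b (hb | hb)
    · exact h1 b hb
    · exact ⟨hb.2.1, hb.1.1⟩
  have hT : {b | {x | b + x ∈ A} ∈ q} ∩ ⋂ b ∈ B ∪ S ∩ Set.Icc 1 N, {x | b + x ∈ A} ∈ q :=
    inter_mem hA ((biInter_mem hB').2 fun b hb => (h1' b hb).2)
  obtain ⟨c, hc, hkc⟩ := far hT k
  refine ⟨⟨(B ∪ S ∩ Set.Icc 1 N, insert c C), hB', hC.insert c, h1', ?_, ?_⟩,
    Set.subset_union_left, Set.subset_insert _ _, ⟨N, hN1, hN2.trans ?_⟩, c, Or.inl rfl, hkc⟩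
  · rintro d (rfl | hd)
    · exact ⟨by omega, hc.1⟩
    · exact h2 d hd
  · rintro b hb d (rfl | hd)
    · exact Set.mem_iInter₂.1 hc.2 b hb
    · rcases hb with hb | hb
      · exact h3 b hb d hd
      · have := Set.mem_iInter₂.1 hb.1.2 d hd
        rwa [add_comm]
  · exact Set.ncard_le_ncard (fun x hx => ⟨Or.inr hx, hx.2⟩)
      ((Set.finite_Icc 1 N).inter_of_right _)

lemma main (A : Set ℕ) (hA : {b | {x | b + x ∈ A} ∈ q} ∈ q) :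
    ∃ B C : Set ℕ, B.Infinite ∧ C.Infinite ∧ (∀ b ∈ B, 1 ≤ b) ∧ (∀ c ∈ C, 1 ≤ c) ∧
      (∀ b ∈ B, ∀ c ∈ C, b + c ∈ A) ∧ ∀ k, ∃ N, k ≤ N ∧ N.sqrt ≤ cnt B N := by
  choose f hf using step A hA
  let p : ℕ → {p // Good A p} := fun n => Nat.rec ⟨(∅, ∅), by simp [Good]⟩ (fun k x => f k x) n
  have m1 : Monotone fun n => (p n).1.1 := monotone_nat_of_le_succ fun n => (hf n (p n)).1
  have m2 : Monotone fun n => (p n).1.2 := monotone_nat_of_le_succ fun n => (hf n (p n)).2.1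
  have hb : ∀ k, ∃ N, k ≤ N ∧ N.sqrt ≤ cnt (⋃ n, (p n).1.1) N := fun k => by
    obtain ⟨N, a, b⟩ := (hf k (p k)).2.2.1
    exact ⟨N, a, b.trans (cnt_mono (Set.subset_iUnion (fun n => (p n).1.1) (k + 1)) N)⟩
  refine ⟨⋃ n, (p n).1.1, ⋃ n, (p n).1.2, fun hfin => ?_, ?_, ?_, ?_, ?_, hb⟩
  · obtain ⟨N, a, b⟩ := hb ((( ⋃ n, (p n).1.1).ncard + 1) * ((⋃ n, (p n).1.1).ncard + 1))
    have c1 := Nat.le_sqrt.2 a
    have c2 : cnt (⋃ n, (p n).1.1) N ≤ (⋃ n, (p n).1.1).ncard :=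
      Set.ncard_le_ncard Set.inter_subset_left hfin
    omega
  · refine Set.infinite_of_forall_exists_gt fun k => ?_
    obtain ⟨c, a, b⟩ := (hf k (p k)).2.2.2
    exact ⟨c, Set.mem_iUnion.2 ⟨k + 1, a⟩, b⟩
  · intro b hb
    obtain ⟨n, hn⟩ := Set.mem_iUnion.1 hb
    exact ((p n).2.2.2.1 b hn).1
  · intro b hb
    obtain ⟨n, hn⟩ := Set.mem_iUnion.1 hb
    exact ((p n).2.2.2.2.1 b hn).1
  · intro b hb c hc
    obtain ⟨n, hn⟩ := Set.mem_iUnion.1 hb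
    obtain ⟨m, hm⟩ := Set.mem_iUnion.1 hc
    exact (p (max n m)).2.2.2.2.2 b (m1 (le_max_left n m) hn) c (m2 (le_max_right n m) hm)

theorem result : ∃ H : ℕ → ℕ, Growth H ∧ ∀ χ : ℕ → Bool, ∃ (B C : Set ℕ) (i : Bool),
    B.Infinite ∧ C.Infinite ∧ (∀ b ∈ B, 1 ≤ b) ∧ (∀ c ∈ C, 1 ≤ c) ∧
    (∀ b ∈ B, ∀ c ∈ C, χ (b + c) = i) ∧ {N | H N ≤ max (cnt B N) (cnt C N)}.Infinite := by
  refine ⟨Nat.sqrt, ⟨fun _ _ h => Nat.sqrt_le_sqrt h,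
    tendsto_atTop_atTop.2 fun b => ⟨b * b, fun a h => Nat.le_sqrt.2 h⟩,
    fun N h => Nat.le_sqrt.2 h⟩, fun χ => ?_⟩
  have : ∃ i, {b | {x | b + x ∈ {y | χ y = i}} ∈ q} ∈ q := by
    by_cases h : {b | {x | b + x ∈ {y | χ y = true}} ∈ q} ∈ q
    · exact ⟨true, h⟩
    · refine ⟨false, mem_of_superset (Ultrafilter.compl_mem_iff_notMem.2 h) fun b hb => ?_⟩
      refine mem_of_superset (Ultrafilter.compl_mem_iff_notMem.2 hb) fun x hx => ?_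
      simpa using hx
  obtain ⟨i, hi⟩ := this
  obtain ⟨B, C, h1, h2, h3, h4, h5, h6⟩ := main _ hi
  refine ⟨B, C, i, h1, h2, h3, h4, h5, Set.infinite_of_forall_exists_gt fun k => ?_⟩
  obtain ⟨N, a, b⟩ := h6 (k + 1)
  exact ⟨N, b.trans (le_max_left _ _), a⟩

end Pool.Agent.Results.MP_870dc7_co.Disproof
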